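import Pool.Agent.Lib_helper70.SparseDet7

set_option autoImplicit false

namespace Pool.Agent.Results.MP_fd57bd_co.SparseDetBound

/-- For every `n` and every 0-1 matrix `A` of order `n` with exactly `e` ones,
`|det A| ≤ 24^(n/7) * exp (0.196 * (e - 3n))`. In particular `|det A| ≤ 24^(n/7)` when `e ≤ 3n`. -/
theorem result :
    ∀ n : ℕ, ∀ A : Matrix (Fin n) (Fin n) ℤ,
      (∀ i j, A i j = 0 ∨ A i j = 1) →
      |((A.det : ℤ) : ℝ)| ≤ (24 : ℝ) ^ ((n : ℝ) / 7) *
        Real.exp ((49 / 250 : ℝ) *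
          (((Finset.univ.filter (fun p : Fin n × Fin n => A p.1 p.2 = 1)).card : ℝ) - 3 * n)) := by
  intro n A h01
  have h1 := Pool.Agent.Lib70.SparseDet.gen_bound n A h01
  have hcount : (∑ i, ∑ j, (A i j : ℝ))
      = ((Finset.univ.filter (fun p : Fin n × Fin n => A p.1 p.2 = 1)).card : ℝ) := by
    rw [Finset.card_filter]
    push_cast
    rw [← Finset.univ_product_univ, Finset.sum_product]
    apply Finset.sum_congr rfl
    intro i _
    apply Finset.sum_congr rfl
    intro j _
    rcases h01 i j with h | h <;> simp [h]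
  refine le_trans h1 (le_of_eq ?_)
  rw [Real.rpow_def_of_pos (by norm_num), ← Real.exp_add]
  congr 1
  unfold Pool.Agent.Lib70.SparseDet.expo
  rw [Pool.Agent.Lib70.SparseDet.log_24, hcount]
  unfold Pool.Agent.Lib70.SparseDet.c0 Pool.Agent.Lib70.SparseDet.bet
  ring

end Pool.Agent.Results.MP_fd57bd_co.SparseDetBound
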